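import Mathlib
import Pool.Agent.H959.UG.Thr

/-!
# Upper tail replica symmetry for every graph, for density near `0` or near `1` (MP_bbc525_pr)

Definitions from the library (in `Pool.Agent.H767R5.UT`):
* `Graphon`: a symmetric measurable function `[0,1]² → [0,1]`;
* `homDensity H W`: the homomorphism density `t(H, W)`;
* `Ip p x = x log (x/p) + (1-x) log ((1-x)/(1-p))`; `cost p W = ∫∫ Ip p (W(x,y)) dx dy`;
* `Feasible H q W`: `t(H, W) ≥ q^{e(H)}`;
* `UT H p q`: the infimum of `cost p W` over the feasible graphons.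

`vd H d` (in `Pool.Agent.H959.UT`) is the number of vertices of degree `d`.

For every graph `H` the replica symmetric region is described, for `q` near `0`, for `q` near `1` and
for `p` near `q`, by an explicit inequality (the hub inequality) in one real variable, which involves
only the degree sequence of `H`; and in this region the constant graphon `q` is the only minimizer.
-/

set_option autoImplicit false

namespace Pool.Agent.Results.MP_bbc525_pr.EveryGraphNearEnds

open MeasureTheory
open Pool.Agent.H767R5.UT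
open Pool.Agent.H959.UT
open Pool.Agent.H959.UG

/-- The number of edges. -/
noncomputable def numE {V : Type} (H : SimpleGraph V) : ℕ := H.edgeSet.ncard

/-- The degree. -/
noncomputable def deg {V : Type} (H : SimpleGraph V) (v : V) : ℕ := (H.neighborSet v).ncard

/-- `λ = I_p'(q)`. -/
noncomputable def lam (p q : ℝ) : ℝ := Real.log (q / (1 - q)) - Real.log (p / (1 - p))

/-- The hub inequality: for every `r` in `[0, 1]`,
`(q λ / (2 e(H))) ∑_v ((r/q)^{deg v} - 1) ≤ I_p(r) - I_p(q)`. -/
def Hub {V : Type} [Fintype V] (H : SimpleGraph V) (p q : ℝ) : Prop :=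
  ∀ r : ℝ, 0 ≤ r → r ≤ 1 →
    q * lam p q / (2 * numE H) * ∑ v : V, ((r / q) ^ deg H v - 1) ≤ Ip p r - Ip p q

/-- The pair `(p, q)` is settled: there is replica symmetry exactly when the hub inequality holds, and
then the constant graphon `q` is the only minimizer. -/
def Settled {V : Type} [Fintype V] (H : SimpleGraph V) (p q : ℝ) : Prop :=
  UT H p q ≤ Ip p q ∧ (UT H p q = Ip p q ↔ Hub H p q) ∧
    (UT H p q = Ip p q → ∀ W : Graphon, Feasible H q W → cost p W = UT H p q →
      ∀ᵐ z : unitInterval × unitInterval, W.toFun z.1 z.2 = q)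

/-- The smaller degree of the ends of an edge. -/
noncomputable def dmin {V : Type} (H : SimpleGraph V) (e : Sym2 V) : ℕ :=
  Sym2.lift ⟨fun u v => min (deg H u) (deg H v), fun _ _ => min_comm _ _⟩ e

/-- The larger degree of the ends of an edge. -/
noncomputable def dmax {V : Type} (H : SimpleGraph V) (e : Sym2 V) : ℕ :=
  Sym2.lift ⟨fun u v => max (deg H u) (deg H v), fun _ _ => max_comm _ _⟩ e

/-- The constant `C(H)`: with `a ≥ b` the degrees of the ends of an edge and `n_a` the number of
vertices of degree `a`,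
`C(H) = (1/e(H)) (∑_{edges} ((1/b - 1/a) (2 e(H)/n_a)² + (a - b)) + (1/2) ∑_v deg v (deg v - 1))`. -/
noncomputable def constC {V : Type} [Fintype V] (H : SimpleGraph V) : ℝ :=
  (∑ e ∈ (Set.toFinite H.edgeSet).toFinset, ((1 / (dmin H e : ℝ) - 1 / (dmax H e : ℝ)) *
      (2 * numE H / (vd H (dmax H e) : ℝ)) ^ 2 + ((dmax H e : ℝ) - dmin H e)) +
    (∑ v : V, (deg H v : ℝ) * (deg H v - 1)) / 2) / numE H

/-- The excess `∑_v max (deg v - 1) 0`. -/
noncomputable def excess {V : Type} [Fintype V] (H : SimpleGraph V) : ℝ :=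
  ∑ v : V, ((deg H v - 1 : ℕ) : ℝ)

theorem deg_eq {V : Type} [Fintype V] [DecidableEq V] (H : SimpleGraph V) (v : V) :
    deg H v = (inc H v).card := (inc_card H v).symm

theorem dmin_eq {V : Type} [Fintype V] [DecidableEq V] (H : SimpleGraph V) (e : Sym2 V) :
    dmin H e = lo H e := by
  induction e with
  | h u v =>
    show min (deg H u) (deg H v) = min (inc H u).card (inc H v).card
    rw [deg_eq, deg_eq]

theorem dmax_eq {V : Type} [Fintype V] [DecidableEq V] (H : SimpleGraph V) (e : Sym2 V) :
    dmax H e = hi H e := by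
  induction e with
  | h u v =>
    show max (deg H u) (deg H v) = max (inc H u).card (inc H v).card
    rw [deg_eq, deg_eq]

theorem constC_eq {V : Type} [Fintype V] [DecidableEq V] (H : SimpleGraph V) :
    constC H = CH H := by
  unfold constC CH numE
  rw [edges_card]
  simp only [dmin_eq, dmax_eq, deg_eq]
  rfl

theorem excess_eq {V : Type} [Fintype V] [DecidableEq V] (H : SimpleGraph V) :
    excess H = mH H := by
  unfold excess mH
  simp only [deg_eq]

theorem lam_eq {p q : ℝ} (hp0 : 0 < p) (hpq : p ≤ q) (hq1 : q < 1) :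
    lam p q = (Real.log q - Real.log (1 - q)) - (Real.log p - Real.log (1 - p)) := by
  unfold lam
  rw [Real.log_div (by linarith) (by linarith), Real.log_div (by linarith) (by linarith)]

theorem hub_iff {V : Type} [Fintype V] [DecidableEq V] (H : SimpleGraph V) {p q : ℝ}
    (hp0 : 0 < p) (hpq : p ≤ q) (hq1 : q < 1) : Hub H p q ↔ HubC H p q := by
  unfold Hub HubC numE
  rw [lam_eq hp0 hpq hq1, ← edges_card]
  simp only [deg_eq]

theorem settled_of {V : Type} [Fintype V] [DecidableEq V] (H : SimpleGraph V) {p q : ℝ}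
    (hp0 : 0 < p) (hpq : p ≤ q) (hq1 : q < 1) (h : Exact H p q) : Settled H p q := by
  unfold Settled
  rw [hub_iff H hp0 hpq hq1]
  exact h

/-- Let `H` be a finite graph with `e ≥ 1` edges.

(1) There are `0 < q₀ < q₁ < 1` such that, for all `0 < p ≤ q < 1` with `q ≤ q₀` or `q ≥ q₁`,
replica symmetry holds at `(p, q)` if and only if the hub inequality holds, and then the constant
graphon `q` is the only minimizer.

(2) The same is true for all `0 < p ≤ q < 1` satisfying one of four explicit conditions, `D` being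
any bound for the degrees of `H`.

(3) The constant of the first two conditions is at most `6 e²`. -/
theorem result : ∀ (V : Type) (_ : Fintype V) (H : SimpleGraph V), 0 < numE H →
    (∃ q₀ q₁ : ℝ, 0 < q₀ ∧ q₀ < q₁ ∧ q₁ < 1 ∧
      ∀ p q : ℝ, 0 < p → p ≤ q → q < 1 → (q ≤ q₀ ∨ q₁ ≤ q) → Settled H p q) ∧
    (∀ (D : ℕ) (p q : ℝ), (∀ v, deg H v ≤ D) → 0 < p → p ≤ q → q < 1 →
      (constC H * lam p q < 1 ∨
        2 * numE H * (constC H * Real.log (1 / q) + 1 - q) < q * ∑ v : V, ((1 / q) ^ deg H v - 1) ∨
        4 * (D : ℝ) ^ 4 * (1 - q) * lam p q < q ^ (3 * D + 1) ∨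
        8 * numE H * (D : ℝ) ^ 4 * (1 - q) * Real.log (1 / (1 - q)) <
          excess H * q ^ (3 * D + 2)) → Settled H p q) ∧
    constC H ≤ 6 * (numE H : ℝ) ^ 2 := by
  classical
  intro V _ H hE
  have hE' : 0 < (edges H).card := by rw [edges_card]; exact hE
  have hne : (edges H).card = numE H := edges_card H
  refine ⟨?_, ?_, ?_⟩
  · obtain ⟨q₀, q₁, h0, h1, h2, h⟩ := thresholds H hE'
    exact ⟨q₀, q₁, h0, h1, h2, fun p q hp0 hpq hq1 hq =>
      settled_of H hp0 hpq hq1 (h p q hp0 hpq hq1 hq)⟩
  · intro D p q hD hp0 hpq hq1 h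
    apply settled_of H hp0 hpq hq1
    refine main_all H hE' hp0 hpq hq1 (D := D) (fun v => by rw [← deg_eq]; exact hD v) ?_
    rw [← constC_eq, ← excess_eq, hne, ← lam_eq hp0 hpq hq1]
    simp only [← deg_eq]
    exact h
  · rw [constC_eq, ← hne]
    exact CH_le H hE'

end Pool.Agent.Results.MP_bbc525_pr.EveryGraphNearEnds
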