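import Mathlib
import Pool.Agent.H959.UT.Nec

/-!
# A necessary condition for upper tail replica symmetry, for every graph (MP_bbc525_pr)

Definitions (in `Pool.Agent.H767R5.UT`):
* `Graphon`: a symmetric measurable function `[0,1]² → [0,1]`;
* `homDensity H W`: the homomorphism density `t(H, W)`;
* `Ip p x = x log (x/p) + (1-x) log ((1-x)/(1-p))`; `cost p W = ∫∫ Ip p (W(x,y)) dx dy`;
* `UT H p q`: the infimum of `cost p W` over the graphons with `t(H, W) ≥ q^{e(H)}`.

The condition involves only the degree sequence of `H`. It is obtained from a graphon equal to `r`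
on a small hub times everything and to a constant close to `q` elsewhere.
-/

set_option autoImplicit false

namespace Pool.Agent.Results.MP_bbc525_pr.HubCondition

open MeasureTheory
open Pool.Agent.H767R5.UT
open Pool.Agent.H959.UT

/-- Let `H` be a finite graph with at least one edge and let `0 < p ≤ q < 1`. If there is replica
symmetry at `(p, q)` then, for every `r` in `[0, 1]`,
`I_p(r) - I_p(q) ≥ (q I_p'(q) / (2 e(H))) ∑_v ((r/q)^{deg v} - 1)`, where
`I_p'(q) = log (q/(1-q)) - log (p/(1-p))`. -/
theorem result : ∀ (V : Type) (_ : Fintype V) (H : SimpleGraph V), 0 < H.edgeSet.ncard →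
    ∀ p q : ℝ, 0 < p → p ≤ q → q < 1 → UT H p q = Ip p q →
      ∀ r : ℝ, 0 ≤ r → r ≤ 1 →
        q * (Real.log (q / (1 - q)) - Real.log (p / (1 - p))) / (2 * H.edgeSet.ncard) *
          ∑ v : V, ((r / q) ^ (H.neighborSet v).ncard - 1) ≤ Ip p r - Ip p q := by
  classical
  intro V _ H hE p q hp0 hpq hq1 hRS r hr0 hr1
  have hq0 : 0 < q := lt_of_lt_of_le hp0 hpq
  have hp1 : p < 1 := lt_of_le_of_lt hpq hq1
  have hE' : 0 < (edges H).card := by rw [edges_card]; exact hE
  have h := necessary H hE' hp0 hpq hq1 hRS hr0 hr1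
  rw [Real.log_div hq0.ne' (by linarith), Real.log_div hp0.ne' (by linarith)]
  simp only [← inc_card]
  rw [← edges_card]
  have hEr : (0 : ℝ) < (edges H).card := by exact_mod_cast hE'
  set S := ∑ v : V, ((r / q) ^ (inc H v).card - 1) with hS
  rw [div_mul_eq_mul_div, div_le_iff₀ (by positivity)]
  linarith

end Pool.Agent.Results.MP_bbc525_pr.HubCondition
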