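import Mathlib
import Pool.Agent.H959.UT.MaxTwo

/-!
# Upper tail replica symmetry phase diagram for graphs of maximum degree at most two
(MP_bbc525_pr)

The complete upper tail replica symmetry phase diagram of every finite graph `H` with at least one
edge and maximum degree at most two, that is, of every disjoint union of paths and cycles; in
particular of every path.

Definitions (in `Pool.Agent.H767R5.UT` and `Pool.Agent.H959.UT`):
* `Graphon`: a symmetric measurable function `[0,1]² → [0,1]`;
* `homDensity H W`: the homomorphism density `t(H, W)`;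
* `Ip p x = x log (x/p) + (1-x) log ((1-x)/(1-p))`; `cost p W = ∫∫ Ip p (W(x,y)) dx dy`;
* `Feasible H q W`: `t(H, W) ≥ q^{e(H)}`;
* `UT H p q`: the infimum of `cost p W` over the feasible graphons;
* `vd H d`: the number of vertices of degree `d`;
* `curve ρ q = (1/q - 1)^((1 + ρ q) / (1 - 2 q))` for `q ≠ 1/2`, and `exp (2 + ρ)` for `q = 1/2`.

With `n_d` the number of vertices of degree `d`, there is replica symmetry exactly when `n_2 = 0`
or `(1 + curve (n_1 / n_2) q) p ≥ 1`, and then the constant graphon `q` is the only minimizer. For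
the path with `k ≥ 2` edges `n_1 / n_2 = 2 / (k - 1)`.
-/

set_option autoImplicit false

namespace Pool.Agent.Results.MP_bbc525_pr.MaxDegreeTwo

open MeasureTheory
open Pool.Agent.H767R5.UT
open Pool.Agent.H959.UT

/-- For a finite graph `H` with at least one edge and maximum degree at most two, and
`0 < p ≤ q < 1`: `UT_p(H, q) ≤ I_p(q)`, with equality (replica symmetry) if and only if `H` has no
vertex of degree two or `(1 + curve (n_1 / n_2) q) p ≥ 1`; and in the replica symmetric region the
constant graphon `q` is the only minimizer. -/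
theorem result : ∀ (V : Type) (_ : Fintype V) (H : SimpleGraph V),
    (∀ v, (H.neighborSet v).ncard ≤ 2) → 0 < H.edgeSet.ncard →
    ∀ p q : ℝ, 0 < p → p ≤ q → q < 1 →
      UT H p q ≤ Ip p q ∧
      (UT H p q = Ip p q ↔ vd H 2 = 0 ∨ 1 ≤ (1 + curve (vd H 1 / vd H 2) q) * p) ∧
      (UT H p q = Ip p q → ∀ W : Graphon, Feasible H q W → cost p W = UT H p q →
        ∀ᵐ z : unitInterval × unitInterval, W.toFun z.1 z.2 = q) := by
  classical
  intro V _ H hdeg hE p q hp0 hpq hq1
  exact main_two H hdeg hE hp0 hpq hq1

end Pool.Agent.Results.MP_bbc525_pr.MaxDegreeTwo
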