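import Mathlib
import Pool.Agent.H959.US.Fin20

/-!
# The hub inequality is not sufficient for replica symmetry: the star with 20 leaves (MP_bbc525_pr)

Definitions from the library (in `Pool.Agent.H767R5.UT`):
* `Graphon`: a symmetric measurable function `[0,1]² → [0,1]`;
* `homDensity H W`: the homomorphism density `t(H, W)`;
* `Ip p x = x log (x/p) + (1-x) log ((1-x)/(1-p))`; `cost p W = ∫∫ Ip p (W(x,y)) dx dy`;
* `UT H p q`: the infimum of `cost p W` over the graphons with `t(H, W) ≥ q^{e(H)}`.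

`star20` (in `Pool.Agent.H959.US`) is the star with centre `0` and the leaves `1, ..., 20` on `Fin 21`.
`pOf l = 19 / (19 + exp l)` is the number `p` with `I_p'(19/20) = l`.
-/

set_option autoImplicit false

namespace Pool.Agent.Results.MP_bbc525_pr.StarHubNotSufficient

open MeasureTheory
open Pool.Agent.H767R5.UT
open Pool.Agent.H959.UT
open Pool.Agent.H959.US

/-- `λ = I_p'(q)`. -/
noncomputable def lam (p q : ℝ) : ℝ := Real.log (q / (1 - q)) - Real.log (p / (1 - p))

/-- The hub inequality: for every `r` in `[0, 1]`,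
`(q λ / (2 e(H))) ∑_v ((r/q)^{deg v} - 1) ≤ I_p(r) - I_p(q)`. -/
def Hub {V : Type} [Fintype V] (H : SimpleGraph V) (p q : ℝ) : Prop :=
  ∀ r : ℝ, 0 ≤ r → r ≤ 1 →
    q * lam p q / (2 * H.edgeSet.ncard) * ∑ v : V, ((r / q) ^ (H.neighborSet v).ncard - 1) ≤
      Ip p r - Ip p q

/-- Let `H` be the star with 20 leaves and `q = 19/20`. For every `l` with `21/10 ≤ l ≤ 40/19` put
`p = 19 / (19 + exp l)`, so that `0 < p < q` and `I_p'(q) = l`. Then the hub inequality holds at
`(p, q)`, but there is symmetry breaking: `UT_p(H, q) < I_p(q)`. -/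
theorem result : ∀ l : ℝ, 21 / 10 ≤ l → l ≤ 40 / 19 →
    0 < pOf l ∧ pOf l < 19 / 20 ∧ lam (pOf l) (19 / 20) = l ∧
      Hub star20 (pOf l) (19 / 20) ∧ UT star20 (pOf l) (19 / 20) < Ip (pOf l) (19 / 20) := by
  intro l hl1 hl2
  have hl0 : 0 < l := by linarith
  have hp0 := pOf_pos l
  have hpq := pOf_lt hl0
  have hlam : lam (pOf l) (19 / 20) = l := by
    unfold lam
    rw [Real.log_div (by norm_num) (by norm_num), Real.log_div hp0.ne' (by linarith)]
    exact lamOf l
  refine ⟨hp0, hpq, hlam, ?_, UT_lt20 hl1⟩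
  intro r hr0 hr1
  rw [hlam, star20_sum, star20_edges]
  exact hub20' hl0 hl2 r hr0 hr1

end Pool.Agent.Results.MP_bbc525_pr.StarHubNotSufficient
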